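import Mathlib

/-!
# MP_f25e07_an: a nonseparable projective Banach lattice with an order unit

The Banach lattice `C([0,1]^Γ)` is projective for every set `Γ`: for a metric quotient map
`Q : X → Y` of Banach lattices and a lattice homomorphism `T : C([0,1]^Γ) → Y` lift `T 1` to `e ≥ 0`
and `T π_γ` to `u_γ ∈ [0, e]`; by a minimax argument the positivity of a maximum of finitely many
affine functions on the cube carries over to `X`, so that `1 ↦ e`, `π_γ ↦ u_γ` extends to a lattice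
homomorphism. For uncountable `Γ` it is not separable, and `1` is an order unit.
-/

open Filter Topology

namespace Pool.Agent.Results.MP_f25e07_an.NonseparableProjective

universe v

set_option linter.unusedSectionVars false

/-- Real Banach lattices. -/
class BanachLattice (X : Type*) [NormedAddCommGroup X] [Lattice X] [NormedSpace ℝ X] : Prop where
  ordered : IsOrderedAddMonoid X
  smul : PosSMulMono ℝ X
  solid : HasSolidNorm X
  complete : CompleteSpace X

attribute [instance] BanachLattice.ordered BanachLattice.smul BanachLattice.solid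
  BanachLattice.complete

section
variable {X Y : Type*} [NormedAddCommGroup X] [Lattice X] [NormedSpace ℝ X]
  [NormedAddCommGroup Y] [Lattice Y] [NormedSpace ℝ Y]

/-- Lattice homomorphisms: (bounded) linear maps which preserve finite suprema and infima. -/
structure IsLatticeHom (T : X →L[ℝ] Y) : Prop where
  sup : ∀ x y, T (x ⊔ y) = T x ⊔ T y
  inf : ∀ x y, T (x ⊓ y) = T x ⊓ T y

/-- Quotient maps `X → X / J` by closed ideals, up to isometric isomorphism: lattice homomorphisms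
`Q` onto `Y` such that the norm of `Y` is the quotient norm. -/
structure IsQuotientMap (Q : X →L[ℝ] Y) : Prop where
  hom : IsLatticeHom Q
  norm_le : ∀ x, ‖Q x‖ ≤ ‖x‖
  lift : ∀ y, ∀ r : ℝ, ‖y‖ < r → ∃ x, Q x = y ∧ ‖x‖ < r

end

/-- Projective Banach lattices. -/
def Projective (P : Type*) [NormedAddCommGroup P] [Lattice P] [NormedSpace ℝ P] : Prop :=
  ∀ (X Y : Type v) [NormedAddCommGroup X] [Lattice X] [NormedSpace ℝ X] [BanachLattice X]
    [NormedAddCommGroup Y] [Lattice Y] [NormedSpace ℝ Y] [BanachLattice Y]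
    (Q : X →L[ℝ] Y), IsQuotientMap Q → ∀ T : P →L[ℝ] Y, IsLatticeHom T → ∀ ε : ℝ, 0 < ε →
      ∃ S : P →L[ℝ] X, IsLatticeHom S ∧ (∀ p, Q (S p) = T p) ∧ ‖S‖ ≤ (1 + ε) * ‖T‖

/-- `e` is a topological order unit: the closed ideal generated by `e` is everything. -/
def IsTopologicalOrderUnit {P : Type*} [NormedAddCommGroup P] [Lattice P] [NormedSpace ℝ P]
    (e : P) : Prop :=
  0 ≤ e ∧ ∀ J : Submodule ℝ P, (∀ x y : P, |y| ≤ |x| → x ∈ J → y ∈ J) → IsClosed (J : Set P) →
    e ∈ J → J = ⊤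

/-! ### The cube -/

variable {Γ : Type} {X : Type v} [NormedAddCommGroup X] [Lattice X] [NormedSpace ℝ X]
  [BanachLattice X]

/-- the cube -/
abbrev K (Γ : Type) := Γ → unitInterval

instance : BanachLattice C(K Γ, ℝ) where
  ordered := inferInstance
  smul := ⟨fun r hr f g h k => mul_le_mul_of_nonneg_left (h k) hr⟩
  solid := ⟨fun f g h => (ContinuousMap.norm_le _ (norm_nonneg _)).2 fun k => by
    have h1 : |f k| ≤ |g k| := h k
    exact h1.trans (g.norm_coe_le_norm k)⟩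
  complete := inferInstance

/-- the coordinates -/
def pr (γ : Γ) : C(K Γ, ℝ) := ⟨fun k => (k γ : ℝ), by fun_prop⟩

/-- the affine function with the given coefficients -/
noncomputable def ev (c : ℝ × (Γ →₀ ℝ)) : C(K Γ, ℝ) :=
  c.1 • 1 + Finsupp.linearCombination ℝ pr c.2

/-- its counterpart -/
noncomputable def sv (e : X) (u : Γ → X) (c : ℝ × (Γ →₀ ℝ)) : X :=
  c.1 • e + Finsupp.linearCombination ℝ u c.2

lemma ev_add (c d : ℝ × (Γ →₀ ℝ)) : ev (c + d) = ev c + ev d := by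
  unfold ev
  rw [Prod.fst_add, Prod.snd_add, map_add, add_smul]
  abel

lemma ev_smul (r : ℝ) (c : ℝ × (Γ →₀ ℝ)) : ev (r • c) = r • ev c := by
  unfold ev
  rw [Prod.smul_fst, Prod.smul_snd, map_smul, smul_add, smul_smul, smul_eq_mul]

lemma sv_add (e : X) (u : Γ → X) (c d : ℝ × (Γ →₀ ℝ)) : sv e u (c + d) = sv e u c + sv e u d := by
  unfold sv
  rw [Prod.fst_add, Prod.snd_add, map_add, add_smul]
  abel

lemma sv_smul (e : X) (u : Γ → X) (r : ℝ) (c : ℝ × (Γ →₀ ℝ)) :
    sv e u (r • c) = r • sv e u c := by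
  unfold sv
  rw [Prod.smul_fst, Prod.smul_snd, map_smul, smul_add, smul_smul, smul_eq_mul]

lemma ev_apply (c : ℝ × (Γ →₀ ℝ)) (k : K Γ) :
    ev c k = c.1 + ∑ γ ∈ c.2.support, c.2 γ * (k γ : ℝ) := by
  unfold ev
  rw [Finsupp.linearCombination_apply, Finsupp.sum]
  simp [pr, ContinuousMap.sum_apply]

/-- generated pairs -/
inductive Gen (e : X) (u : Γ → X) : C(K Γ, ℝ) → X → Prop
  | one : Gen e u 1 e
  | pi (γ : Γ) : Gen e u (pr γ) (u γ)
  | add {f g x y} : Gen e u f x → Gen e u g y → Gen e u (f + g) (x + y)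
  | smul (r : ℝ) {f x} : Gen e u f x → Gen e u (r • f) (r • x)
  | sup {f g x y} : Gen e u f x → Gen e u g y → Gen e u (f ⊔ g) (x ⊔ y)

/-- maxima of finitely many affine functions -/
inductive Mx (e : X) (u : Γ → X) : C(K Γ, ℝ) → X → Prop
  | lin (c : ℝ × (Γ →₀ ℝ)) : Mx e u (ev c) (sv e u c)
  | sup {f g x y} : Mx e u f x → Mx e u g y → Mx e u (f ⊔ g) (x ⊔ y)

lemma Mx.add {e : X} {u : Γ → X} {f g x y} (h : Mx e u f x) (h' : Mx e u g y) :
    Mx e u (f + g) (x + y) := by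
  induction h with
  | lin c =>
    induction h' with
    | lin d => rw [← ev_add, ← sv_add]; exact .lin _
    | sup _ _ ih1 ih2 => rw [add_sup, add_sup]; exact ih1.sup ih2
  | sup _ _ ih1 ih2 => rw [sup_add, sup_add]; exact ih1.sup ih2

lemma smul_sup' {Z : Type*} [NormedAddCommGroup Z] [Lattice Z] [NormedSpace ℝ Z]
    [IsOrderedAddMonoid Z] [PosSMulMono ℝ Z] {r : ℝ} (hr : 0 < r) (x y : Z) :
    r • (x ⊔ y) = r • x ⊔ r • y := by
  apply le_antisymm
  · have h : x ⊔ y ≤ r⁻¹ • (r • x ⊔ r • y) := by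
      apply sup_le
      · have := smul_le_smul_of_nonneg_left (le_sup_left : r • x ≤ r • x ⊔ r • y)
          (inv_pos.2 hr).le
        rwa [smul_smul, inv_mul_cancel₀ hr.ne', one_smul] at this
      · have := smul_le_smul_of_nonneg_left (le_sup_right : r • y ≤ r • x ⊔ r • y)
          (inv_pos.2 hr).le
        rwa [smul_smul, inv_mul_cancel₀ hr.ne', one_smul] at this
    have := smul_le_smul_of_nonneg_left h hr.le
    rwa [smul_smul, mul_inv_cancel₀ hr.ne', one_smul] at this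
  · exact sup_le (smul_le_smul_of_nonneg_left le_sup_left hr.le)
      (smul_le_smul_of_nonneg_left le_sup_right hr.le)

lemma Mx.smul {e : X} {u : Γ → X} {f x} (h : Mx e u f x) {r : ℝ} (hr : 0 < r) :
    Mx e u (r • f) (r • x) := by
  induction h with
  | lin c => rw [← ev_smul, ← sv_smul]; exact .lin _
  | @sup f g x y _ _ ih1 ih2 =>
    have e1 : r • (f ⊔ g) = r • f ⊔ r • g := smul_sup' (Z := C(K Γ, ℝ)) hr f g
    have e2 : r • (x ⊔ y) = r • x ⊔ r • y := smul_sup' hr x y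
    rw [e1, e2]
    exact ih1.sup ih2

lemma sub_sup_sub {Z : Type*} [AddCommGroup Z] [Lattice Z] [IsOrderedAddMonoid Z]
    (a b c d : Z) : (a - b) ⊔ (c - d) = ((a + d) ⊔ (c + b)) - (b + d) := by
  rw [sup_sub]
  congr 1 <;> abel

lemma Gen.nf {e : X} {u : Γ → X} {f x} (h : Gen e u f x) :
    ∃ a p b q, Mx e u a p ∧ Mx e u b q ∧ f = a - b ∧ x = p - q := by
  have h0 : Mx e u 0 0 := by
    have := Mx.lin (e := e) (u := u) 0
    have e1 : ev (0 : ℝ × (Γ →₀ ℝ)) = 0 := by simp [ev]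
    have e2 : sv e u 0 = 0 := by simp [sv]
    rwa [e1, e2] at this
  induction h with
  | one =>
    refine ⟨1, e, 0, 0, ?_, h0, by simp, by simp⟩
    have := Mx.lin (e := e) (u := u) (1, 0)
    have e1 : ev ((1, 0) : ℝ × (Γ →₀ ℝ)) = 1 := by simp [ev]
    have e2 : sv e u (1, 0) = e := by simp [sv]
    rwa [e1, e2] at this
  | pi γ =>
    refine ⟨pr γ, u γ, 0, 0, ?_, h0, by simp, by simp⟩
    have := Mx.lin (e := e) (u := u) (0, Finsupp.single γ 1)
    have e1 : ev ((0, Finsupp.single γ 1) : ℝ × (Γ →₀ ℝ)) = pr γ := by simp [ev]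
    have e2 : sv e u (0, Finsupp.single γ 1) = u γ := by simp [sv]
    rwa [e1, e2] at this
  | add _ _ ih1 ih2 =>
    obtain ⟨a, p, b, q, h1, h2, rfl, rfl⟩ := ih1
    obtain ⟨a', p', b', q', h1', h2', rfl, rfl⟩ := ih2
    exact ⟨_, _, _, _, h1.add h1', h2.add h2', by abel, by abel⟩
  | smul r _ ih =>
    obtain ⟨a, p, b, q, h1, h2, rfl, rfl⟩ := ih
    rcases lt_trichotomy r 0 with hr | hr | hr
    · refine ⟨_, _, _, _, h2.smul (neg_pos.2 hr), h1.smul (neg_pos.2 hr), ?_, ?_⟩ <;>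
      · rw [smul_sub, neg_smul, neg_smul]; abel
    · subst hr
      exact ⟨0, 0, 0, 0, h0, h0, by simp, by simp⟩
    · exact ⟨_, _, _, _, h1.smul hr, h2.smul hr, smul_sub _ _ _, smul_sub _ _ _⟩
  | sup _ _ ih1 ih2 =>
    obtain ⟨a, p, b, q, h1, h2, rfl, rfl⟩ := ih1
    obtain ⟨a', p', b', q', h1', h2', rfl, rfl⟩ := ih2
    exact ⟨_, _, _, _, (h1.add h2').sup (h1'.add h2), h2.add h2', sub_sup_sub _ _ _ _,
      sub_sup_sub _ _ _ _⟩

lemma Mx.fam {e : X} {u : Γ → X} {f x} (h : Mx e u f x) :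
    ∃ T : Finset (ℝ × (Γ →₀ ℝ)), (∀ c ∈ T, sv e u c ≤ x) ∧ ∀ k, ∃ c ∈ T, f k = ev c k := by
  classical
  induction h with
  | lin c => exact ⟨{c}, by simp, by simp⟩
  | @sup f g x y _ _ ih1 ih2 =>
    obtain ⟨T, h1, h2⟩ := ih1
    obtain ⟨T', h1', h2'⟩ := ih2
    refine ⟨T ∪ T', fun c hc => ?_, fun k => ?_⟩
    · rcases Finset.mem_union.1 hc with hc | hc
      · exact (h1 c hc).trans le_sup_left
      · exact (h1' c hc).trans le_sup_right
    · rw [ContinuousMap.sup_apply]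
      rcases le_total (f k) (g k) with h | h
      · obtain ⟨c, hc, hk⟩ := h2' k
        exact ⟨c, Finset.mem_union_right _ hc, by rw [sup_eq_right.2 h]; exact hk⟩
      · obtain ⟨c, hc, hk⟩ := h2 k
        exact ⟨c, Finset.mem_union_left _ hc, by rw [sup_eq_left.2 h]; exact hk⟩

/-- positivity of affine functions -/
lemma pos_lin {e : X} {u : Γ → X} (hu : ∀ γ, 0 ≤ u γ ∧ u γ ≤ e) (he : 0 ≤ e)
    (c : ℝ × (Γ →₀ ℝ)) (hc : ∀ k, 0 ≤ ev c k) : 0 ≤ sv e u c := by
  classical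
  have h1 := hc (fun γ => if c.2 γ < 0 then 1 else 0)
  rw [ev_apply] at h1
  have h2 : ∑ γ ∈ c.2.support, (if c.2 γ < 0 then c.2 γ else 0) • e ≤
      ∑ γ ∈ c.2.support, c.2 γ • u γ := by
    apply Finset.sum_le_sum
    intro γ _
    split_ifs with h
    · have h3 := smul_le_smul_of_nonneg_left (hu γ).2 (neg_pos.2 h).le
      rw [neg_smul, neg_smul] at h3
      exact neg_le_neg_iff.1 h3
    · rw [zero_smul]
      exact smul_nonneg (not_lt.1 h) (hu γ).1
  unfold sv
  rw [Finsupp.linearCombination_apply, Finsupp.sum]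
  refine le_trans ?_ (add_le_add_right h2 (c.1 • e))
  rw [← Finset.sum_smul, ← add_smul]
  apply smul_nonneg _ he
  have e1 : ∑ γ ∈ c.2.support, (if c.2 γ < 0 then c.2 γ else 0) =
      ∑ γ ∈ c.2.support, c.2 γ * ((if c.2 γ < 0 then 1 else 0 : unitInterval) : ℝ) := by
    apply Finset.sum_congr rfl
    intro γ _
    split_ifs <;> simp
  rw [e1]
  exact h1

/-- the minimax theorem for affine functions on the cube -/
lemma minimax (T : Finset (ℝ × (Γ →₀ ℝ))) (hT : ∀ k : K Γ, ∃ c ∈ T, 0 ≤ ev c k) :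
    ∃ l : (ℝ × (Γ →₀ ℝ)) → ℝ, (∀ c ∈ T, 0 ≤ l c) ∧ 0 < ∑ c ∈ T, l c ∧
      ∀ k : K Γ, 0 ≤ ∑ c ∈ T, l c * ev c k := by
  classical
  set s : Set (T → ℝ) := {v | ∀ c, v c < 0} with hs
  set t : Set (T → ℝ) := Set.range fun (k : K Γ) (c : T) => ev c.1 k with ht
  have hs1 : Convex ℝ s := by
    intro v hv w hw a b ha hb hab c
    have h1 := hv c
    have h2 := hw c
    simp only [Pi.add_apply, Pi.smul_apply, smul_eq_mul]
    rcases eq_or_lt_of_le ha with h | h
    · subst h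
      have : b = 1 := by linarith
      subst this
      linarith
    · nlinarith
  have hs2 : IsOpen s := by
    have : s = Set.pi Set.univ fun _ => Set.Iio 0 := by
      ext v; simp [hs]
    rw [this]
    exact isOpen_set_pi Set.finite_univ fun _ _ => isOpen_Iio
  have ht1 : Convex ℝ t := by
    rintro _ ⟨k, rfl⟩ _ ⟨l, rfl⟩ a b ha hb hab
    refine ⟨fun γ => ⟨a * k γ + b * l γ, ?_, ?_⟩, ?_⟩
    · have := (k γ).2.1
      have := (l γ).2.1
      positivity
    · nlinarith [(k γ).2.2, (l γ).2.2]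
    · funext c
      simp only [Pi.add_apply, Pi.smul_apply, smul_eq_mul, ev_apply]
      have : ∀ γ, c.1.2 γ * (a * (k γ : ℝ) + b * (l γ : ℝ)) =
          a * (c.1.2 γ * (k γ : ℝ)) + b * (c.1.2 γ * (l γ : ℝ)) := fun γ => by ring
      simp only [this, Finset.sum_add_distrib, ← Finset.mul_sum]
      have h1 : c.1.1 = a * c.1.1 + b * c.1.1 := by rw [← add_mul, hab, one_mul]
      linarith
  have hdis : Disjoint s t := by
    rw [Set.disjoint_left]
    rintro _ h ⟨k, rfl⟩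
    obtain ⟨c, hc, hk⟩ := hT k
    exact absurd (h ⟨c, hc⟩) (not_lt.2 hk)
  obtain ⟨f, r, hf1, hf2⟩ := geometric_hahn_banach_open hs1 hs2 ht1 hdis
  have hf : ∀ w : T → ℝ, f w = ∑ c, w c * f (Pi.single c 1) := by
    intro w
    conv_lhs => rw [← Finset.univ_sum_single w]
    rw [map_sum]
    apply Finset.sum_congr rfl
    intro c _
    rw [← smul_eq_mul, ← map_smul]
    congr 1
    ext d
    by_cases h : d = c
    · subst h; simp
    · simp [h]
  have hr : 0 ≤ r := by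
    by_contra hneg
    push Not at hneg
    -- small negative vectors
    have h1 : ∀ δ : ℝ, 0 < δ → δ * f (fun _ => -1) < r := by
      intro δ hδ
      have := hf1 (δ • fun _ => -1) (fun c => by simp [hδ])
      rwa [map_smul, smul_eq_mul] at this
    set A := f (fun _ => (-1 : ℝ))
    rcases le_or_gt 0 A with hA | hA
    · have := h1 1 one_pos
      linarith
    · have h2 := h1 (r / (2 * A)) (div_pos_of_neg_of_neg hneg (by linarith))
      have hA0 : A ≠ 0 := hA.ne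
      have h3 : r / (2 * A) * A = r / 2 := by
        rw [div_mul_eq_mul_div, mul_comm 2 A, mul_comm r A, mul_div_mul_left _ _ hA0]
      rw [h3] at h2
      linarith
  have hl : ∀ c : T, 0 ≤ f (Pi.single c 1) := by
    intro c
    by_contra hneg
    push Not at hneg
    set A := f (fun _ => (-1 : ℝ)) with hA
    set L := f (Pi.single c (1 : ℝ)) with hL
    have h1 : ∀ M : ℝ, 0 ≤ M → A - M * L < r := by
      intro M hM
      have := hf1 ((fun _ => (-1 : ℝ)) - M • Pi.single c 1) (fun d => by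
        simp only [Pi.sub_apply, Pi.smul_apply, smul_eq_mul]
        by_cases h : d = c
        · subst h; simp; linarith
        · simp [h])
      rwa [map_sub, map_smul, smul_eq_mul] at this
    have h2 := h1 ((|A| + |r| + 1) / (-L)) (by
      apply div_nonneg (by positivity); linarith)
    have h3 : (|A| + |r| + 1) / (-L) * L = -(|A| + |r| + 1) := by
      have : L ≠ 0 := hneg.ne
      field_simp
    rw [h3] at h2
    have := neg_abs_le A
    have := le_abs_self r
    linarith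
  have k0 : K Γ := fun _ => 0
  refine ⟨fun c => if h : c ∈ T then f (Pi.single ⟨c, h⟩ 1) else 0, fun c hc => ?_, ?_, fun k => ?_⟩
  · simp only [hc, dif_pos]
    exact hl _
  · have e1 : ∑ c ∈ T, (if h : c ∈ T then f (Pi.single ⟨c, h⟩ 1) else 0) =
        ∑ c : T, f (Pi.single c 1) := by
      rw [← Finset.sum_coe_sort T]
      apply Finset.sum_congr rfl
      intro c _
      simp
    rw [e1]
    refine lt_of_le_of_ne (Finset.sum_nonneg fun c _ => hl c) fun h0 => ?_
    have h2 : ∀ c : T, f (Pi.single c 1) = 0 := fun c =>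
      (Finset.sum_eq_zero_iff_of_nonneg fun c _ => hl c).1 h0.symm c (Finset.mem_univ c)
    have h3 := hf1 (fun _ => -1) (fun c => by simp)
    have h4 := hf2 _ ⟨k0, rfl⟩
    rw [hf] at h3 h4
    simp only [h2, mul_zero, Finset.sum_const_zero] at h3 h4
    linarith
  · have h4 := hf2 _ ⟨k, rfl⟩
    rw [hf] at h4
    have e1 : ∑ c ∈ T, (if h : c ∈ T then f (Pi.single ⟨c, h⟩ 1) else 0) * ev c k =
        ∑ c : T, ev c.1 k * f (Pi.single c 1) := by
      rw [← Finset.sum_coe_sort T]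
      apply Finset.sum_congr rfl
      intro c _
      simp [mul_comm]
    rw [e1]
    exact hr.trans h4

lemma Mx.pos {e : X} {u : Γ → X} (hu : ∀ γ, 0 ≤ u γ ∧ u γ ≤ e) (he : 0 ≤ e) {f x}
    (h : Mx e u f x) (hf : 0 ≤ f) : 0 ≤ x := by
  obtain ⟨T, h1, h2⟩ := h.fam
  obtain ⟨l, l1, l2, l3⟩ := minimax T fun k => by
    obtain ⟨c, hc, hk⟩ := h2 k
    exact ⟨c, hc, hk ▸ hf k⟩
  have h3 : ∀ S : Finset (ℝ × (Γ →₀ ℝ)), sv e u (∑ c ∈ S, l c • c) = ∑ c ∈ S, l c • sv e u c := by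
    classical
    intro S
    induction S using Finset.induction_on with
    | empty => simp [sv]
    | insert a s ha ih => rw [Finset.sum_insert ha, Finset.sum_insert ha, sv_add, sv_smul, ih]
  have h4 : ∀ S : Finset (ℝ × (Γ →₀ ℝ)), ev (∑ c ∈ S, l c • c) = ∑ c ∈ S, l c • ev c := by
    classical
    intro S
    induction S using Finset.induction_on with
    | empty => simp [ev]
    | insert a s ha ih => rw [Finset.sum_insert ha, Finset.sum_insert ha, ev_add, ev_smul, ih]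
  have h5 : 0 ≤ sv e u (∑ c ∈ T, l c • c) := by
    apply pos_lin hu he
    intro k
    rw [h4, ContinuousMap.sum_apply]
    simpa using l3 k
  rw [h3] at h5
  have h6 : ∑ c ∈ T, l c • sv e u c ≤ (∑ c ∈ T, l c) • x := by
    rw [Finset.sum_smul]
    exact Finset.sum_le_sum fun c hc => smul_le_smul_of_nonneg_left (h1 c hc) (l1 c hc)
  have h7 := smul_le_smul_of_nonneg_left (h5.trans h6) (inv_pos.2 l2).le
  rwa [smul_zero, smul_smul, inv_mul_cancel₀ l2.ne', one_smul] at h7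

lemma Mx.mono {e : X} {u : Γ → X} (hu : ∀ γ, 0 ≤ u γ ∧ u γ ≤ e) (he : 0 ≤ e) {f x g y}
    (h : Mx e u f x) (h' : Mx e u g y) (hfg : f ≤ g) : x ≤ y := by
  induction h with
  | lin c =>
    have h1 := (Mx.lin (e := e) (u := u) ((-1 : ℝ) • c)).add h'
    have h2 := h1.pos hu he (by
      rw [ev_smul, neg_one_smul, neg_add_eq_sub]
      exact sub_nonneg.2 hfg)
    rw [sv_smul, neg_one_smul, neg_add_eq_sub] at h2
    exact sub_nonneg.1 h2
  | sup _ _ ih1 ih2 =>
    exact sup_le (ih1 (le_sup_left.trans hfg)) (ih2 (le_sup_right.trans hfg))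

lemma Gen.pos {e : X} {u : Γ → X} (hu : ∀ γ, 0 ≤ u γ ∧ u γ ≤ e) (he : 0 ≤ e) {f x}
    (h : Gen e u f x) (hf : 0 ≤ f) : 0 ≤ x := by
  obtain ⟨a, p, b, q, h1, h2, rfl, rfl⟩ := h.nf
  exact sub_nonneg.2 (h2.mono hu he h1 (sub_nonneg.1 hf))

lemma Gen.bound {e : X} {u : Γ → X} (hu : ∀ γ, 0 ≤ u γ ∧ u γ ≤ e) (he : 0 ≤ e) {f x}
    (h : Gen e u f x) : ‖x‖ ≤ ‖f‖ * ‖e‖ := by
  have h1 : 0 ≤ ‖f‖ • e + (-1 : ℝ) • x := by
    refine ((Gen.one.smul ‖f‖).add (h.smul (-1))).pos hu he fun k => ?_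
    have := f.norm_coe_le_norm k
    rw [Real.norm_eq_abs] at this
    have := le_abs_self (f k)
    simp
    linarith
  have h2 : 0 ≤ ‖f‖ • e + (1 : ℝ) • x := by
    refine ((Gen.one.smul ‖f‖).add (h.smul 1)).pos hu he fun k => ?_
    have := f.norm_coe_le_norm k
    rw [Real.norm_eq_abs] at this
    have := neg_abs_le (f k)
    simp
    linarith
  rw [neg_one_smul, ← sub_eq_add_neg] at h1
  rw [one_smul] at h2
  have h0 : 0 ≤ ‖f‖ • e := smul_nonneg (norm_nonneg _) he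
  have h3 : |x| ≤ |‖f‖ • e| := by
    rw [abs_of_nonneg h0]
    exact abs_le'.2 ⟨sub_nonneg.1 h1, by
      have := h2
      rw [← sub_neg_eq_add] at this
      exact sub_nonneg.1 this⟩
  refine (HasSolidNorm.solid h3).trans ?_
  rw [norm_smul, norm_norm]

/-- the closure of the set of generated pairs -/
def G (e : X) (u : Γ → X) : Set (C(K Γ, ℝ) × X) := closure {q | Gen e u q.1 q.2}

lemma G_add {e : X} {u : Γ → X} {a b} (ha : a ∈ G e u) (hb : b ∈ G e u) : a + b ∈ G e u :=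
  map_mem_closure₂ continuous_add ha hb fun _ h1 _ h2 => Gen.add h1 h2

lemma G_smul {e : X} {u : Γ → X} (r : ℝ) {a} (ha : a ∈ G e u) : r • a ∈ G e u :=
  map_mem_closure (continuous_const_smul r) ha fun _ h1 => Gen.smul r h1

lemma G_sup {e : X} {u : Γ → X} {a b} (ha : a ∈ G e u) (hb : b ∈ G e u) :
    (a.1 ⊔ b.1, a.2 ⊔ b.2) ∈ G e u := by
  have hc : Continuous (Function.uncurry fun a b : C(K Γ, ℝ) × X => (a.1 ⊔ b.1, a.2 ⊔ b.2)) :=
    ((continuous_fst.comp continuous_fst).sup (continuous_fst.comp continuous_snd)).prodMk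
      ((continuous_snd.comp continuous_fst).sup (continuous_snd.comp continuous_snd))
  exact map_mem_closure₂ (f := fun a b : C(K Γ, ℝ) × X => (a.1 ⊔ b.1, a.2 ⊔ b.2)) hc ha hb
    fun _ h1 _ h2 => Gen.sup h1 h2

lemma G_bound {e : X} {u : Γ → X} (hu : ∀ γ, 0 ≤ u γ ∧ u γ ≤ e) (he : 0 ≤ e) {a}
    (ha : a ∈ G e u) : ‖a.2‖ ≤ ‖a.1‖ * ‖e‖ := by
  have hcl : IsClosed {a : C(K Γ, ℝ) × X | ‖a.2‖ ≤ ‖a.1‖ * ‖e‖} :=
    isClosed_le (by fun_prop) (by fun_prop)
  exact closure_minimal (fun q hq => Gen.bound hu he hq) hcl ha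

lemma G_unique {e : X} {u : Γ → X} (hu : ∀ γ, 0 ≤ u γ ∧ u γ ≤ e) (he : 0 ≤ e) {f x y}
    (h : (f, x) ∈ G e u) (h' : (f, y) ∈ G e u) : x = y := by
  have h1 : ‖x - y‖ ≤ ‖f - f‖ * ‖e‖ := by
    have := G_bound hu he (G_add h (G_smul (-1) h'))
    simpa [sub_eq_add_neg] using this
  rw [sub_self, norm_zero, zero_mul] at h1
  exact sub_eq_zero.1 (norm_le_zero_iff.1 h1)

lemma G_exists {e : X} {u : Γ → X} (hu : ∀ γ, 0 ≤ u γ ∧ u γ ≤ e) (he : 0 ≤ e) (f : C(K Γ, ℝ)) :
    ∃ x, (f, x) ∈ G e u := by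
  have hd : closure {g : C(K Γ, ℝ) | ∃ y, Gen e u g y} = ⊤ := by
    apply ContinuousMap.sublattice_closure_eq_top
    · exact ⟨1, e, .one⟩
    · rintro f ⟨x, hx⟩ g ⟨y, hy⟩
      refine ⟨(-1 : ℝ) • ((-1 : ℝ) • x ⊔ (-1 : ℝ) • y), ?_⟩
      have := ((hx.smul (-1)).sup (hy.smul (-1))).smul (-1)
      have e1 : (-1 : ℝ) • ((-1 : ℝ) • f ⊔ (-1 : ℝ) • g) = f ⊓ g := by
        ext k
        simp only [neg_smul, one_smul, ContinuousMap.neg_apply, ContinuousMap.sup_apply,
          ContinuousMap.inf_apply]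
        rcases le_total (f k) (g k) with h | h
        · rw [sup_eq_left.2 (neg_le_neg h), inf_eq_left.2 h, neg_neg]
        · rw [sup_eq_right.2 (neg_le_neg h), inf_eq_right.2 h, neg_neg]
      rwa [e1] at this
    · rintro f ⟨x, hx⟩ g ⟨y, hy⟩
      exact ⟨_, hx.sup hy⟩
    · intro v x y
      by_cases hxy : x = y
      · subst hxy
        exact ⟨v x • 1, ⟨_, Gen.one.smul _⟩, by simp, by simp⟩
      · obtain ⟨γ, hγ⟩ := Function.ne_iff.1 hxy
        have hγ' : (x γ : ℝ) - y γ ≠ 0 := sub_ne_zero.2 fun h => hγ (Subtype.ext h)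
        refine ⟨((v x * (-(y γ : ℝ)) + v y * x γ) / ((x γ : ℝ) - y γ)) • 1 +
          ((v x - v y) / ((x γ : ℝ) - y γ)) • pr γ,
          ⟨_, (Gen.one.smul _).add ((Gen.pi γ).smul _)⟩, ?_, ?_⟩
        · simp [pr]
          field_simp
          ring
        · simp [pr]
          field_simp
          ring
  have hf : f ∈ closure {g : C(K Γ, ℝ) | ∃ y, Gen e u g y} := hd ▸ trivial
  obtain ⟨g, hg, hlim⟩ := mem_closure_iff_seq_limit.1 hf
  choose y hy using hg
  have hyc : CauchySeq y := by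
    rw [Metric.cauchySeq_iff']
    intro δ hδ
    obtain ⟨N, hN⟩ := Metric.cauchySeq_iff'.1 hlim.cauchySeq (δ / (‖e‖ + 1)) (by positivity)
    refine ⟨N, fun n hn => ?_⟩
    have h1 := hN n hn
    rw [dist_eq_norm] at h1 ⊢
    have h2 := ((hy n).add ((hy N).smul (-1))).bound hu he
    rw [neg_one_smul, neg_one_smul, ← sub_eq_add_neg, ← sub_eq_add_neg] at h2
    calc ‖y n - y N‖ ≤ ‖g n - g N‖ * ‖e‖ := h2
      _ ≤ ‖g n - g N‖ * (‖e‖ + 1) := by gcongr; linarith
      _ < δ / (‖e‖ + 1) * (‖e‖ + 1) := by gcongr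
      _ = δ := by field_simp
  obtain ⟨x, hx⟩ := cauchySeq_tendsto_of_complete hyc
  exact ⟨x, mem_closure_of_tendsto (hlim.prodMk_nhds hx) (Eventually.of_forall hy)⟩

theorem exists_hom {e : X} {u : Γ → X} (hu : ∀ γ, 0 ≤ u γ ∧ u γ ≤ e) (he : 0 ≤ e) :
    ∃ S : C(K Γ, ℝ) →L[ℝ] X, IsLatticeHom S ∧ (∀ f, (f, S f) ∈ G e u) ∧ ‖S‖ ≤ ‖e‖ := by
  choose S hS using G_exists (Γ := Γ) hu he
  have hadd : ∀ f g, S (f + g) = S f + S g := fun f g =>
    G_unique hu he (hS _) (G_add (hS f) (hS g))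
  have hsmul : ∀ (r : ℝ) f, S (r • f) = r • S f := fun r f =>
    G_unique hu he (hS _) (G_smul r (hS f))
  have hsup : ∀ f g, S (f ⊔ g) = S f ⊔ S g := fun f g =>
    G_unique hu he (hS _) (G_sup (hS f) (hS g))
  let L : C(K Γ, ℝ) →L[ℝ] X := LinearMap.mkContinuous
    { toFun := S, map_add' := hadd, map_smul' := hsmul } ‖e‖ (fun f => by
      have := G_bound hu he (hS f)
      rw [mul_comm]
      exact this)
  have hneg : ∀ f, S (-f) = - S f := fun f => by
    have := hsmul (-1) f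
    rwa [neg_one_smul, neg_one_smul] at this
  refine ⟨L, ⟨hsup, fun f g => ?_⟩, hS, LinearMap.mkContinuous_norm_le _ (norm_nonneg _) _⟩
  change S (f ⊓ g) = S f ⊓ S g
  have e1 : f ⊓ g = -(-f ⊔ -g) := by rw [neg_sup, neg_neg, neg_neg]
  rw [e1, hneg, hsup, hneg, hneg, neg_sup, neg_neg, neg_neg]

theorem projective_cube (Γ : Type) : Projective.{v} C(K Γ, ℝ) := by
  intro X Y _ _ _ _ _ _ _ _ Q hQ T hT ε hε
  have hTpos : ∀ f : C(K Γ, ℝ), 0 ≤ f → 0 ≤ T f := by
    intro f hf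
    have := hT.sup f 0
    rw [sup_eq_left.2 hf, map_zero] at this
    rw [this]
    exact le_sup_right
  have hTmono : ∀ f g : C(K Γ, ℝ), f ≤ g → T f ≤ T g := by
    intro f g h
    have := hTpos (g - f) (sub_nonneg.2 h)
    rw [map_sub] at this
    exact sub_nonneg.1 this
  have hT1 : ‖T 1‖ ≤ ‖T‖ := by
    have := T.le_opNorm 1
    rwa [norm_one, mul_one] at this
  -- a lift of `T 1`
  obtain ⟨x, hx1, hx2⟩ : ∃ x, Q x = T 1 ∧ ‖x‖ ≤ (1 + ε) * ‖T‖ := by
    rcases eq_or_lt_of_le (norm_nonneg (T 1)) with h | h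
    · refine ⟨0, ?_, ?_⟩
      · rw [map_zero]
        exact (norm_eq_zero.1 h.symm).symm
      · rw [norm_zero]; positivity
    · obtain ⟨x, hx1, hx2⟩ := hQ.lift (T 1) ((1 + ε) * ‖T 1‖) (by nlinarith)
      refine ⟨x, hx1, hx2.le.trans ?_⟩
      gcongr
  have hQabs : ∀ x, Q |x| = |Q x| := by
    intro x
    change Q (x ⊔ -x) = Q x ⊔ -Q x
    rw [hQ.hom.sup, map_neg]
  have hQe : Q |x| = T 1 := by
    rw [hQabs, hx1, abs_of_nonneg (hTpos 1 fun _ => zero_le_one)]
  have hl : ∀ γ : Γ, ∃ z, Q z = T (pr γ) := fun γ => by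
    obtain ⟨z, hz, -⟩ := hQ.lift (T (pr γ)) (‖T (pr γ)‖ + 1) (by linarith)
    exact ⟨z, hz⟩
  choose z hz using hl
  have hQu : ∀ γ, Q (|z γ| ⊓ |x|) = T (pr γ) := by
    intro γ
    rw [hQ.hom.inf, hQe, hQabs, hz, abs_of_nonneg (hTpos (pr γ) fun k => (k γ).2.1)]
    exact inf_eq_left.2 (hTmono _ _ fun k => (k γ).2.2)
  obtain ⟨S, hS1, hS2, hS3⟩ := exists_hom (Γ := Γ) (e := |x|) (u := fun γ => |z γ| ⊓ |x|)
    (fun γ => ⟨le_inf (abs_nonneg _) (abs_nonneg _), inf_le_right⟩) (abs_nonneg x)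
  refine ⟨S, hS1, fun f => ?_, hS3.trans (by rwa [norm_abs_eq_norm])⟩
  have hcl : IsClosed {a : C(K Γ, ℝ) × X | Q a.2 = T a.1} :=
    isClosed_eq (by fun_prop) (by fun_prop)
  refine closure_minimal (fun q hq => ?_) hcl (hS2 f)
  obtain ⟨g, y⟩ := q
  change Q y = T g
  have hq' : Gen |x| (fun γ => |z γ| ⊓ |x|) g y := hq
  clear hq
  induction hq' with
  | one => exact hQe
  | pi γ => exact hQu γ
  | add _ _ ih1 ih2 => rw [map_add, map_add, ih1, ih2]
  | smul r _ ih => rw [map_smul, map_smul, ih]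
  | sup _ _ ih1 ih2 => rw [hQ.hom.sup, hT.sup, ih1, ih2]

/-- **Theorem.** There is a projective Banach lattice with a topological order unit which is not
separable. -/
theorem result : ∃ (P : Type) (_ : NormedAddCommGroup P) (_ : Lattice P) (_ : NormedSpace ℝ P),
    BanachLattice P ∧ Projective.{v} P ∧ (∃ e : P, IsTopologicalOrderUnit e) ∧
      ¬ TopologicalSpace.SeparableSpace P := by
  refine ⟨C(K ℝ, ℝ), inferInstance, inferInstance, inferInstance, inferInstance,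
    projective_cube ℝ, ⟨1, fun _ => zero_le_one, fun J hJ _ h1 => ?_⟩, fun hsep => ?_⟩
  · rw [eq_top_iff]
    intro f _
    refine hJ (‖f‖ • 1) f ?_ (J.smul_mem _ h1)
    rw [abs_of_nonneg (smul_nonneg (norm_nonneg f) (fun _ => zero_le_one : (0 : C(K ℝ, ℝ)) ≤ 1))]
    intro k
    have := f.norm_coe_le_norm k
    rw [Real.norm_eq_abs] at this
    simpa using this
  · have h1 : (Set.univ : Set ℝ).PairwiseDisjoint fun γ => Metric.ball (pr γ) (1 / 2) := by
      intro γ _ δ _ hne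
      apply Metric.ball_disjoint_ball
      have h2 := (pr γ - pr δ : C(K ℝ, ℝ)).norm_coe_le_norm (fun t => if t = γ then 1 else 0)
      rw [dist_eq_norm]
      refine le_trans ?_ h2
      have : δ ≠ γ := fun h => hne h.symm
      simp [pr, this]
      norm_num
    have h2 := h1.countable_of_isOpen (fun _ _ => Metric.isOpen_ball)
      (fun γ _ => ⟨pr γ, Metric.mem_ball_self (by norm_num)⟩)
    exact Set.not_countable_univ h2

end Pool.Agent.Results.MP_f25e07_an.NonseparableProjective
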